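import Pool.Agent.H144.TS.Stm

set_option autoImplicit false

/-!
# Project TS: the parts PRJ1 and PRJ2 (averaging operators of a frame)
-/

namespace Pool.Agent.H399.TS144

open Finset Pool.Agent.H144.TS

section Avg

variable {F : Type} [Field F] {Ω : Type}

/-- The averaging operator. -/
noncomputable def PA (T : (p : ℕ) → ZMod p → Ω → Ω) (p : ℕ) : (Ω → F) →ₗ[F] (Ω → F) where
  toFun c := fun x => (p : F)⁻¹ * ∑ b ∈ range p, c (T p (b : ZMod p) x)
  map_add' c d := by
    funext x
    simp only [Pi.add_apply, sum_add_distrib, mul_add]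
  map_smul' r c := by
    funext x
    simp only [Pi.smul_apply, smul_eq_mul, RingHom.id_apply, ← mul_sum]
    ring

lemma PA_apply (T : (p : ℕ) → ZMod p → Ω → Ω) (p : ℕ) (c : Ω → F) (x : Ω) :
    PA T p c x = (p : F)⁻¹ * ∑ b ∈ range p, c (T p (b : ZMod p) x) := rfl

/-- Sums over `range p` are sums over `ZMod p`. -/
lemma sum_range_zmod {M : Type} [AddCommMonoid M] (p : ℕ) [NeZero p] (f : ZMod p → M) :
    ∑ b ∈ range p, f (b : ZMod p) = ∑ b : ZMod p, f b := by
  refine Finset.sum_nbij (fun b : ℕ => (b : ZMod p)) ?_ ?_ ?_ ?_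
  · intro b _
    exact Finset.mem_univ _
  · intro b hb b' hb' h
    rw [Finset.coe_range, Set.mem_Iio] at hb hb'
    have h1 : ((b : ZMod p)).val = ((b' : ZMod p)).val := by
      simp only at h
      rw [h]
    rwa [ZMod.val_natCast, ZMod.val_natCast, Nat.mod_eq_of_lt hb, Nat.mod_eq_of_lt hb'] at h1
  · intro b _
    refine ⟨b.val, ?_, ?_⟩
    · rw [Finset.coe_range, Set.mem_Iio]
      exact ZMod.val_lt b
    · exact ZMod.natCast_zmod_val b
  · intro b _
    rfl

variable {T : (p : ℕ) → ZMod p → Ω → Ω} {a : (p : ℕ) → Ω → ZMod p} {S : Finset ℕ}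

lemma neZero_of_cast {p : ℕ} (hp : (p : F) ≠ 0) : NeZero p := ⟨fun h => hp (by rw [h, Nat.cast_zero])⟩

lemma sum_shift (hT : Frame S T a) {p : ℕ} (hp : p ∈ S) (hpF : (p : F) ≠ 0) (c : Ω → F)
    (b' : ZMod p) (x : Ω) :
    ∑ b ∈ range p, c (T p (b : ZMod p) (T p b' x)) = ∑ b ∈ range p, c (T p (b : ZMod p) x) := by
  have := neZero_of_cast hpF
  rw [sum_range_zmod p (fun b => c (T p b (T p b' x))), sum_range_zmod p (fun b => c (T p b x))]
  rw [← Equiv.sum_comp (Equiv.addRight b') (fun b => c (T p b x))]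
  refine Finset.sum_congr rfl fun b _ => ?_
  rw [Equiv.coe_addRight, hT.2.1 p hp b b' x]

/-- Averages are invariant. -/
lemma PA_mem_InvT (hT : Frame S T a) {p : ℕ} (hp : p ∈ S) (hpF : (p : F) ≠ 0) (c : Ω → F) :
    PA T p c ∈ InvT F T p := by
  intro b x
  rw [PA_apply, PA_apply, sum_shift hT hp hpF]

/-- Invariant functions are their averages. -/
lemma PA_of_InvT {p : ℕ} (hpF : (p : F) ≠ 0) {c : Ω → F} (hc : c ∈ InvT F T p) :
    PA T p c = c := by
  funext x
  rw [PA_apply, Finset.sum_congr rfl (g := fun _ => c x) (fun b _ => hc _ x), Finset.sum_const,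
    Finset.card_range, nsmul_eq_mul, ← mul_assoc, inv_mul_cancel₀ hpF, one_mul]

lemma PA_of_zero {p : ℕ} {c : Ω → F} (hc : ∀ x, ∑ b ∈ range p, c (T p (b : ZMod p) x) = 0) :
    PA T p c = 0 := by
  funext x
  rw [PA_apply, hc x, mul_zero]
  rfl

/-- The averaging operator of `p` preserves the functions invariant under `p'`. -/
lemma PA_InvT (hT : Frame S T a) {p p' : ℕ} (hp : p ∈ S) (hp' : p' ∈ S) (hne : p ≠ p')
    {c : Ω → F} (hc : c ∈ InvT F T p') : PA T p c ∈ InvT F T p' := by
  intro b x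
  rw [PA_apply, PA_apply]
  congr 1
  refine Finset.sum_congr rfl fun b' _ => ?_
  rw [hT.2.2.2.2 p hp p' hp' hne, hc]

/-- The averaging operator of `p` preserves the vanishing of the averages for `p'`. -/
lemma PA_zero (hT : Frame S T a) {p p' : ℕ} (hp : p ∈ S) (hp' : p' ∈ S) (hne : p ≠ p')
    {c : Ω → F} (hc : ∀ x, ∑ b ∈ range p', c (T p' (b : ZMod p') x) = 0) (x : Ω) :
    ∑ b ∈ range p', PA T p c (T p' (b : ZMod p') x) = 0 := by
  simp only [PA_apply]
  rw [← Finset.mul_sum, Finset.sum_comm, Finset.sum_eq_zero, mul_zero]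
  intro b' _
  rw [Finset.sum_congr rfl (g := fun b : ℕ => c (T p' (b : ZMod p') (T p (b' : ZMod p) x)))
    (fun b _ => by rw [hT.2.2.2.2 p hp p' hp' hne])]
  exact hc _

lemma sub_PA_zero (hT : Frame S T a) {p : ℕ} (hp : p ∈ S) (hpF : (p : F) ≠ 0) (c : Ω → F)
    (x : Ω) : ∑ b ∈ range p, (c - PA T p c) (T p (b : ZMod p) x) = 0 := by
  simp only [Pi.sub_apply]
  rw [Finset.sum_sub_distrib,
    Finset.sum_congr rfl (g := fun _ => PA T p c x) (fun b _ => PA_mem_InvT hT hp hpF c _ x),
    Finset.sum_const, Finset.card_range, nsmul_eq_mul, PA_apply, ← mul_assoc,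
    mul_inv_cancel₀ hpF, one_mul, sub_self]

/-- Averages of words of a code closed under the translations lie in the code. -/
lemma PA_mem {p : ℕ} (C : Submodule F (Ω → F))
    (hC : ∀ b, ∀ c ∈ C, (fun x => c (T p b x)) ∈ C) {c : Ω → F} (hc : c ∈ C) : PA T p c ∈ C := by
  have h1 : PA T p c = (p : F)⁻¹ • ∑ b ∈ range p, (fun x => c (T p (b : ZMod p) x)) := by
    funext x
    rw [PA_apply, Pi.smul_apply, Finset.sum_apply, smul_eq_mul]
  rw [h1]
  exact C.smul_mem _ (C.sum_mem fun b _ => hC _ c hc)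

end Avg

theorem t_prj1 : S_PRJ1 := by
  intro F _ Ω _ S T a hT hS C hC hCN
  have key : ∀ S' : Finset ℕ, S' ⊆ S → ∀ c ∈ C, ∃ c' ∈ C,
      c - c' ∈ (⨆ p ∈ S', InvT F T p) ∧
      ∀ p ∈ S', ∀ x, ∑ b ∈ range p, c' (T p (b : ZMod p) x) = 0 := by
    intro S'
    induction S' using Finset.induction_on with
    | empty =>
      intro _ c hc
      refine ⟨c, hc, ?_, ?_⟩
      · rw [sub_self]
        exact Submodule.zero_mem _
      · intro p hp
        exact absurd hp (Finset.notMem_empty p)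
    | insert p0 S' hp0 ih =>
      intro hsub c hc
      have hp0S : p0 ∈ S := hsub (Finset.mem_insert_self _ _)
      have hsub' : S' ⊆ S := fun p hp => hsub (Finset.mem_insert_of_mem hp)
      obtain ⟨c', hc', h1, h2⟩ := ih hsub' c hc
      refine ⟨c' - PA T p0 c', C.sub_mem hc' (PA_mem C (hC p0 hp0S) hc'), ?_, ?_⟩
      · rw [Finset.iSup_insert]
        have h3 : c - (c' - PA T p0 c') = PA T p0 c' + (c - c') := by abel
        rw [h3]
        exact Submodule.add_mem_sup (PA_mem_InvT hT hp0S (hS p0 hp0S) c') h1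
      · intro p hp x
        rcases Finset.mem_insert.1 hp with rfl | hp
        · exact sub_PA_zero hT hp0S (hS _ hp0S) c' x
        · have hne : p0 ≠ p := fun h => hp0 (h ▸ hp)
          simp only [Pi.sub_apply]
          rw [Finset.sum_sub_distrib, h2 p hp x, PA_zero hT hp0S (hsub' hp) hne (h2 p hp) x,
            sub_zero]
  intro hbot
  apply hCN
  intro c hc
  obtain ⟨c', hc', h1, h2⟩ := key S (Finset.Subset.refl S) c hc
  have h3 : c' ∈ C ⊓ ZeroT F S T := ⟨hc', h2⟩
  rw [hbot, Submodule.mem_bot] at h3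
  rw [h3, sub_zero] at h1
  exact h1

theorem t_prj2 : S_PRJ2 := by
  intro F _ Ω _ S T a hT hS
  have key : ∀ S' : Finset ℕ, S' ⊆ S → ∀ c ∈ (⨆ p ∈ S', InvT F T p),
      (∀ p ∈ S', ∀ x, ∑ b ∈ range p, c (T p (b : ZMod p) x) = 0) → c = 0 := by
    intro S'
    induction S' using Finset.induction_on with
    | empty =>
      intro _ c hc _
      simpa using hc
    | insert p0 S' hp0 ih =>
      intro hsub c hc hz
      have hp0S : p0 ∈ S := hsub (Finset.mem_insert_self _ _)
      have hsub' : S' ⊆ S := fun p hp => hsub (Finset.mem_insert_of_mem hp)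
      rw [Finset.iSup_insert] at hc
      obtain ⟨e, he, d, hd, hed⟩ := Submodule.mem_sup.1 hc
      have h1 : PA T p0 c = 0 := PA_of_zero (hz p0 (Finset.mem_insert_self _ _))
      have h2 : PA T p0 e = e := PA_of_InvT (hS p0 hp0S) he
      have h3 : c = d - PA T p0 d := by
        have h4 : PA T p0 c = PA T p0 e + PA T p0 d := by rw [← hed, map_add]
        rw [h1, h2] at h4
        rw [← hed]
        have h5 : e = - PA T p0 d := by
          rw [eq_neg_iff_add_eq_zero]
          exact h4.symm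
        rw [h5]
        abel
      have h6 : (⨆ p ∈ S', InvT F T p) ≤ (⨆ p ∈ S', InvT F T p).comap (PA T p0) := by
        refine iSup₂_le fun p hp => ?_
        intro f hf
        rw [Submodule.mem_comap]
        have hne : p0 ≠ p := fun h => hp0 (h ▸ hp)
        exact (le_iSup₂ (f := fun p (_ : p ∈ S') => InvT F T p) p hp)
          (PA_InvT hT hp0S (hsub' hp) hne hf)
      refine ih hsub' c ?_ (fun p hp => hz p (Finset.mem_insert_of_mem hp))
      rw [h3]
      exact Submodule.sub_mem _ hd (h6 hd)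
  rw [eq_bot_iff]
  rintro c ⟨h1, h2⟩
  rw [Submodule.mem_bot]
  exact key S (Finset.Subset.refl S) c h2 h1

end Pool.Agent.H399.TS144
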